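import Pool.Agent.Y381.UG.PF
import Pool.Agent.TH996.Urn.SbcMain

/-! # Copies of a graph glued together: coexistence -/

set_option autoImplicit false

open Finset Pool.Agent.TH996.Urn

namespace Pool.Agent.Y381.UG

/-- `m` disjoint copies of the graph `H` together with the vertices of `B`, which carry the
graph `Q`; the vertex `b` is joined to the vertices `a` with `R b a` in every copy. -/
def glued (m : ℕ) {A B : Type} (H : SimpleGraph A) (Q : SimpleGraph B) (R : B → A → Prop) :
    SimpleGraph ((Fin m × A) ⊕ B) where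
  Adj x y := match x, y with
    | .inl (i, a), .inl (j, a') => i = j ∧ H.Adj a a'
    | .inl (_, a), .inr b => R b a
    | .inr b, .inl (_, a) => R b a
    | .inr b, .inr b' => Q.Adj b b'
  symm := ⟨by
    rintro (⟨i, a⟩ | b) (⟨j, a'⟩ | b') h
    · exact ⟨h.1.symm, h.2.symm⟩
    · exact h
    · exact h
    · exact SimpleGraph.Adj.symm (G := Q) h⟩
  loopless := ⟨by
    rintro (⟨i, a⟩ | b) h
    · exact H.loopless.irrefl _ h.2
    · exact Q.loopless.irrefl _ h⟩

variable {A B : Type} {k s : ℕ}

/-- the vertices of the first three copies -/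
def inK : (Fin (k + 3) × A) ⊕ B → Prop
  | .inl (i, _) => i.val < 3
  | .inr _ => False

/-- the colours -/
def col (hs : 3 ≤ s) : (Fin (k + 3) × A) ⊕ B → Fin s
  | .inl (i, _) => if i.val = 0 then ⟨0, by omega⟩ else if i.val = 1 then ⟨1, by omega⟩
      else ⟨2, by omega⟩
  | .inr _ => ⟨0, by omega⟩

/-- the eigenvector -/
def vec (φ : A → ℝ) : (Fin (k + 3) × A) ⊕ B → ℝ
  | .inl (i, a) => if i.val < 3 then φ a else 0
  | .inr _ => 0

/-- the supersolution -/
def sup (φ : A → ℝ) : (Fin (k + 3) × A) ⊕ B → ℝ
  | .inl (_, a) => φ a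
  | .inr _ => 1

theorem main [Fintype A] [Fintype B] [Nontrivial A] (hs : 3 ≤ s) (H : SimpleGraph A)
    (hH : H.Connected) (Q : SimpleGraph B) (R : B → A → Prop) (hR : ∀ b, ∃ a, R b a) :
    ¬ InClass (glued (k + 3) H Q R) s := by
  classical
  obtain ⟨φ, μ, hμ, hφ, hev⟩ := exists_pos_eig H hH
  obtain ⟨a0⟩ := (inferInstance : Nonempty A)
  refine sbc_not_inClass (K := univ.filter inK) (χ := col hs) (φ := vec φ) (μ := μ) ?_
  refine ⟨hμ, ?_, ?_, ?_, ?_, ?_, ?_, ⟨sup φ, ?_⟩⟩
  · rintro (⟨i, a⟩ | b) hv
    · have hi : i.val < 3 := (mem_filter.1 hv).2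
      show 0 < (if i.val < 3 then φ a else 0)
      rw [if_pos hi]
      exact hφ a
    · exact absurd (mem_filter.1 hv).2 (fun h => h)
  · rintro (⟨i, a⟩ | b) hv
    · have hi : ¬ i.val < 3 := fun h => hv (mem_filter.2 ⟨mem_univ _, h⟩)
      show (if i.val < 3 then φ a else 0) = 0
      rw [if_neg hi]
    · rfl
  · rintro (⟨i, a⟩ | b) hv
    · have hi : i.val < 3 := (mem_filter.1 hv).2
      rw [Fintype.sum_sum_type, Fintype.sum_prod_type]
      have e1 : ∀ b : B, (if (glued (k + 3) H Q R).Adj (.inl (i, a)) (.inr b) then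
          vec φ (.inr b : (Fin (k + 3) × A) ⊕ B) else 0) = 0 := fun b => by
        split_ifs
        · rfl
        · rfl
      rw [sum_congr rfl fun b _ => e1 b, sum_const_zero, add_zero]
      rw [Finset.sum_eq_single i]
      · have e2 : ∀ a', (if (glued (k + 3) H Q R).Adj (.inl (i, a)) (.inl (i, a')) then
            vec φ (.inl (i, a') : (Fin (k + 3) × A) ⊕ B) else 0) =
            if H.Adj a a' then φ a' else 0 := fun a' => by
          have h1 : (glued (k + 3) H Q R).Adj (.inl (i, a)) (.inl (i, a')) ↔ H.Adj a a' :=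
            ⟨fun h => h.2, fun h => ⟨rfl, h⟩⟩
          have h2 : vec φ (.inl (i, a') : (Fin (k + 3) × A) ⊕ B) = φ a' := if_pos hi
          rw [h2]
          simp only [h1]
        rw [sum_congr rfl fun a' _ => e2 a', hev a]
        show _ = μ * (if i.val < 3 then φ a else 0)
        rw [if_pos hi]
      · intro j _ hj
        refine sum_eq_zero fun a' _ => ?_
        rw [if_neg]
        exact fun h => hj h.1.symm
      · intro h
        exact absurd (mem_univ i) h
    · exact absurd (mem_filter.1 hv).2 (fun h => h)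
  · rintro (⟨i, a⟩ | b) hu (⟨j, a'⟩ | b') hv h
    · have : i = j := h.1
      subst this
      rfl
    · exact absurd (mem_filter.1 hv).2 (fun h => h)
    · exact absurd (mem_filter.1 hu).2 (fun h => h)
    · exact absurd (mem_filter.1 hu).2 (fun h => h)
  · refine ⟨.inl (⟨0, by omega⟩, a0), mem_filter.2 ⟨mem_univ _, by show (0 : ℕ) < 3; omega⟩,
      .inl (⟨1, by omega⟩, a0), mem_filter.2 ⟨mem_univ _, by show (1 : ℕ) < 3; omega⟩, ?_⟩
    intro h
    have := congrArg Fin.val h
    simp [col] at this
  · rintro (⟨i, a⟩ | b) hz ⟨u, hu, huz⟩ c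
    · exfalso
      have hi : ¬ i.val < 3 := fun h => hz (mem_filter.2 ⟨mem_univ _, h⟩)
      rcases u with ⟨j, a'⟩ | b'
      · have hj : j.val < 3 := (mem_filter.1 hu).2
        have : i = j := huz.1
        rw [this] at hi
        exact hi hj
      · exact absurd (mem_filter.1 hu).2 (fun h => h)
    · obtain ⟨a1, ha1⟩ := hR b
      have hS : 0 < ∑ a, if R b a then φ a else 0 := by
        refine Finset.sum_pos' (fun u _ => ?_) ⟨a1, mem_univ _, ?_⟩
        · split_ifs
          · exact (hφ u).le
          · exact le_rfl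
        · rw [if_pos ha1]
          exact hφ a1
      set S := ∑ a, if R b a then φ a else 0 with hSdef
      have f1 : ∀ i : Fin (k + 3), (∑ a, if (glued (k + 3) H Q R).Adj (.inr b) (.inl (i, a)) then
          vec φ (.inl (i, a) : (Fin (k + 3) × A) ⊕ B) else 0) = if i.val < 3 then S else 0 := by
        intro i
        by_cases hi : i.val < 3
        · rw [if_pos hi, hSdef]
          refine sum_congr rfl fun a _ => ?_
          have h1 : (glued (k + 3) H Q R).Adj (.inr b) (.inl (i, a)) ↔ R b a := Iff.rfl
          have h2 : vec φ (.inl (i, a) : (Fin (k + 3) × A) ⊕ B) = φ a := if_pos hi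
          rw [h2]
          simp only [h1]
        · rw [if_neg hi]
          refine sum_eq_zero fun a _ => ?_
          have h2 : vec φ (.inl (i, a) : (Fin (k + 3) × A) ⊕ B) = 0 := if_neg hi
          rw [h2, ite_self]
      have f2 : ∀ i : Fin (k + 3), (∑ a, if (glued (k + 3) H Q R).Adj (.inr b) (.inl (i, a)) ∧
          col hs (.inl (i, a) : (Fin (k + 3) × A) ⊕ B) = c then
          vec φ (.inl (i, a) : (Fin (k + 3) × A) ⊕ B) else 0) =
          if i.val < 3 ∧ col hs (.inl (i, a0) : (Fin (k + 3) × A) ⊕ B) = c then S else 0 := by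
        intro i
        by_cases hc : col hs (.inl (i, a0) : (Fin (k + 3) × A) ⊕ B) = c
        · have hc' : ∀ a, col hs (.inl (i, a) : (Fin (k + 3) × A) ⊕ B) = c := fun a => hc
          simp only [hc', and_true]
          exact f1 i
        · have hc' : ∀ a, ¬ col hs (.inl (i, a) : (Fin (k + 3) × A) ⊕ B) = c := fun a => hc
          simp only [hc', and_false, if_false, sum_const_zero]
      rw [Fintype.sum_sum_type, Fintype.sum_prod_type, Fintype.sum_sum_type,
        Fintype.sum_prod_type]
      have e1 : ∀ b' : B, (if (glued (k + 3) H Q R).Adj (.inr b) (.inr b') then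
          vec φ (.inr b' : (Fin (k + 3) × A) ⊕ B) else 0) = 0 := fun b' => by
        split_ifs
        · rfl
        · rfl
      have e2 : ∀ b' : B, (if (glued (k + 3) H Q R).Adj (.inr b) (.inr b') ∧
          col hs (.inr b' : (Fin (k + 3) × A) ⊕ B) = c then
          vec φ (.inr b' : (Fin (k + 3) × A) ⊕ B) else 0) = 0 := fun b' => by
        split_ifs
        · rfl
        · rfl
      rw [sum_congr rfl fun b' _ => e1 b', sum_congr rfl fun b' _ => e2 b', sum_const_zero,
        add_zero, add_zero, sum_congr rfl fun i _ => f1 i, sum_congr rfl fun i _ => f2 i]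
      rw [Fin.sum_univ_succ, Fin.sum_univ_succ, Fin.sum_univ_succ, Fin.sum_univ_succ,
        Fin.sum_univ_succ, Fin.sum_univ_succ]
      have g1 : ∀ i : Fin k, (if (i.succ.succ.succ : Fin (k + 3)).val < 3 then S else 0) = 0 :=
        fun i => if_neg (by simp)
      have g2 : ∀ i : Fin k, (if (i.succ.succ.succ : Fin (k + 3)).val < 3 ∧
          col hs (.inl (i.succ.succ.succ, a0) : (Fin (k + 3) × A) ⊕ B) = c then S else 0) = 0 :=
        fun i => if_neg (by simp)
      rw [sum_congr rfl fun i _ => g1 i, sum_congr rfl fun i _ => g2 i, sum_const_zero]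
      simp only [col, Fin.val_zero, Fin.val_succ]
      norm_num
      rcases c with ⟨c, hc⟩
      simp only [Fin.mk.injEq]
      rcases Nat.lt_or_ge c 3 with h3 | h3
      · interval_cases c
        · norm_num
          linarith
        · norm_num
          linarith
        · norm_num
          linarith
      · have h0 : ¬ (0 = c) := by omega
        have h1 : ¬ (1 = c) := by omega
        have h2 : ¬ (2 = c) := by omega
        simp only [h0, h1, h2, if_false]
        linarith
  · rintro (⟨i, a⟩ | b) hu hadj
    · refine ⟨hφ a, ?_⟩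
      have hi : ¬ i.val < 3 := fun h => hu (mem_filter.2 ⟨mem_univ _, h⟩)
      rw [Fintype.sum_sum_type, Fintype.sum_prod_type]
      refine add_le_of_le_of_nonpos ?_ (le_of_eq (sum_eq_zero fun b _ => ?_))
      swap
      · rw [if_neg]
        rintro ⟨_, _, h⟩
        obtain ⟨a1, ha1⟩ := hR b
        exact h (.inl (⟨0, by omega⟩, a1))
          (mem_filter.2 ⟨mem_univ _, by show (0 : ℕ) < 3; omega⟩) ha1
      rw [Finset.sum_eq_single i]
      · show _ ≤ μ * φ a
        rw [← hev a]
        refine sum_le_sum fun a' _ => ?_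
        by_cases h : H.Adj a a'
        · rw [if_pos h]
          split_ifs
          · exact le_rfl
          · exact (hφ a').le
        · rw [if_neg h, if_neg]
          exact fun h' => h h'.1.2
      · intro j _ hj
        refine sum_eq_zero fun a' _ => ?_
        rw [if_neg]
        exact fun h => hj h.1.1.symm
      · intro h
        exact absurd (mem_univ i) h
    · exfalso
      obtain ⟨a1, ha1⟩ := hR b
      exact hadj (.inl (⟨0, by omega⟩, a1))
        (mem_filter.2 ⟨mem_univ _, by show (0 : ℕ) < 3; omega⟩) ha1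

end Pool.Agent.Y381.UG
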