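import Pool.Agent.Helper951.Spec

/-! # A positive eigenvector of a connected graph -/

set_option autoImplicit false

open Finset

namespace Pool.Agent.Y381.UG

open Classical in
theorem exists_pos_eig {A : Type} [Fintype A] [Nontrivial A] (H : SimpleGraph A)
    (hH : H.Connected) : ∃ (φ : A → ℝ) (μ : ℝ), 0 < μ ∧ (∀ a, 0 < φ a) ∧
      ∀ a, (∑ b, if H.Adj a b then φ b else 0) = μ * φ a := by
  obtain ⟨x, hx1, hx0, hev⟩ := Pool.Agent.Helper951.Spec.exists_perron H
  have hsum : ∀ v, (∑ u, if H.Adj v u then x u else 0) =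
      Pool.Agent.Helper951.Spec.specRad H * x v := by
    intro v
    rw [← hev v, ← Finset.sum_filter]
    apply Finset.sum_congr _ (fun _ _ => rfl)
    ext u
    simp
  have hprop : ∀ v, x v = 0 → ∀ u, H.Adj v u → x u = 0 := by
    intro v hv u hu
    have h1 := hsum v
    rw [hv, mul_zero] at h1
    have h2 := (Finset.sum_eq_zero_iff_of_nonneg (fun u _ => by
      split_ifs
      · exact hx0 u
      · exact le_rfl)).1 h1 u (mem_univ u)
    rwa [if_pos hu] at h2
  have hpos : ∀ v, 0 < x v := by
    intro v
    refine lt_of_le_of_ne (hx0 v) (fun h => ?_)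
    have hall : ∀ u, x u = 0 := by
      intro u
      obtain ⟨p⟩ := hH.preconnected v u
      have : ∀ (a b : A) (p : H.Walk a b), x a = 0 → x b = 0 := by
        intro a b p
        induction p with
        | nil => exact id
        | cons h _ ih => exact fun h0 => ih (hprop _ h0 _ h)
      exact this v u p h.symm
    have : x = 0 := funext hall
    rw [this] at hx1
    simp at hx1
  obtain ⟨a⟩ := (inferInstance : Nonempty A)
  obtain ⟨b, hb⟩ := exists_ne a
  have hadj : ∃ c, H.Adj a c := by
    obtain ⟨p⟩ := hH.preconnected a b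
    cases p with
    | nil => exact absurd rfl hb
    | cons h _ => exact ⟨_, h⟩
  obtain ⟨c, hc⟩ := hadj
  refine ⟨x, Pool.Agent.Helper951.Spec.specRad H, ?_, hpos, hsum⟩
  have h1 := hsum a
  have h2 : 0 < ∑ u, if H.Adj a u then x u else 0 := by
    refine Finset.sum_pos' (fun u _ => ?_) ⟨c, mem_univ c, ?_⟩
    · split_ifs
      · exact hx0 u
      · exact le_rfl
    · rw [if_pos hc]
      exact hpos c
  rw [h1] at h2
  exact (pos_iff_pos_of_mul_pos h2).2 (hpos a)

end Pool.Agent.Y381.UG
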